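import Pool.Agent.Lib.TGB_h66.Disc
import Pool.Agent.Lib.ALLZO.CoordC2

/-!
# TANK G, limit level: `p`-coordinates of the localised normalisation, denominators in a submonoid

`invS R X` is the ring of the `f` with `x f ∈ R` for some `x ∈ X ∩ R` (`X` a submonoid of `Ω`, in
practice the monomials of a frame).  `ICl v R E` is the localisation at the centre of `v` of the
integral closure of `R` in `E`.
-/

set_option autoImplicit false

open Polynomial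

namespace Pool.Agent.TGBh66

open Pool.Agent.TAO (OVal VPos)
open Pool.Agent.ALLO (locv icl ICl)
open Pool.Agent.LU1 (FracIs)

universe u w

variable {k Ω : Type u} [Field k] [Field Ω] [Algebra k Ω]
  {𝕂 : Type w} [Field 𝕂] [LinearOrder 𝕂] [IsStrictOrderedRing 𝕂] {v : OVal 𝕂 Ω}

/-- The elements of `Ω` with a denominator in `X ∩ R`. -/
def invS (R : Subalgebra k Ω) (X : Submonoid Ω) : Subalgebra k Ω where
  carrier := {f | ∃ x ∈ X, x ∈ R ∧ x * f ∈ R}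
  mul_mem' := by
    rintro f g ⟨x, hx, hxR, hf⟩ ⟨y, hy, hyR, hg⟩
    refine ⟨x * y, X.mul_mem hx hy, R.mul_mem hxR hyR, ?_⟩
    have e : x * y * (f * g) = (x * f) * (y * g) := by ring
    rw [e]
    exact R.mul_mem hf hg
  add_mem' := by
    rintro f g ⟨x, hx, hxR, hf⟩ ⟨y, hy, hyR, hg⟩
    refine ⟨x * y, X.mul_mem hx hy, R.mul_mem hxR hyR, ?_⟩
    have e : x * y * (f + g) = y * (x * f) + x * (y * g) := by ring
    rw [e]
    exact R.add_mem (R.mul_mem hyR hf) (R.mul_mem hxR hg)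
  algebraMap_mem' := fun c => ⟨1, X.one_mem, R.one_mem, by
    rw [one_mul]; exact R.algebraMap_mem c⟩

variable {R R' : Subalgebra k Ω} {X : Submonoid Ω} {K E E' : IntermediateField k Ω}

theorem mem_invS {f : Ω} : f ∈ invS R X ↔ ∃ x ∈ X, x ∈ R ∧ x * f ∈ R := Iff.rfl

theorem le_invS : R ≤ invS R X := fun f hf => ⟨1, X.one_mem, R.one_mem, by
  rw [one_mul]; exact hf⟩

theorem invS_mono (h : R ≤ R') : invS R X ≤ invS R' X := fun _ ⟨x, hx, hxR, hf⟩ =>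
  ⟨x, hx, h hxR, h hf⟩

theorem inv_mem_invS {x : Ω} (hx : x ∈ X) (hxR : x ∈ R) (hx0 : x ≠ 0) : x⁻¹ ∈ invS R X :=
  ⟨x, hx, hxR, by rw [mul_inv_cancel₀ hx0]; exact R.one_mem⟩

/-- An element integral over `R[1/X]` has a multiple integral over `R`. -/
theorem int_clearS {a : Ω} (h : IsIntegral (invS R X) a) :
    ∃ x ∈ X, x ∈ R ∧ IsIntegral R (x * a) := by
  obtain ⟨s, -, ⟨hs, hsR⟩, h1⟩ := ALLZO.int_den (S := R) (T := invS R X)
    (fun s => s ∈ X ∧ s ∈ R) ⟨X.one_mem, R.one_mem⟩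
    (fun s t hs ht => ⟨X.mul_mem hs.1 ht.1, R.mul_mem hs.2 ht.2⟩) (by
      rintro z ⟨x, hx, hxR, hz⟩
      exact ⟨x, hxR, ⟨hx, hxR⟩, hz⟩) h
  exact ⟨s, hs, hsR, h1⟩

theorem isIntegral_mono (h : R ≤ R') {a : Ω} (ha : IsIntegral R a) : IsIntegral R' a := by
  obtain ⟨P, hP, hPe⟩ := ha
  refine ⟨P.map (Subalgebra.inclusion h).toRingHom, hP.map _, ?_⟩
  rw [eval₂_map]
  exact hPe

theorem isIntegral_of_mem {a : Ω} (ha : a ∈ R) : IsIntegral R a :=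
  isIntegral_algebraMap (R := R) (A := Ω) (x := ⟨a, ha⟩)

/-- `R` is integrally closed in its field of fractions `K`. -/
def Nrm (R : Subalgebra k Ω) (K : IntermediateField k Ω) : Prop :=
  ∀ f ∈ K, IsIntegral R f → f ∈ R

theorem Nrm.invS (hR : Nrm R K) (hRK : ∀ f ∈ R, f ∈ K) :
    Nrm (invS R X) K := by
  intro f hf hi
  obtain ⟨x, hx, hxR, h1⟩ := int_clearS hi
  exact ⟨x, hx, hxR, hR _ (K.mul_mem (hRK x hxR) hf) h1⟩

theorem invS_le (hRK : ∀ f ∈ R, f ∈ K) (hX : ∀ x ∈ X, x ≠ 0) : ∀ f ∈ invS R X, f ∈ K := by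
  rintro f ⟨x, hx, hxR, hf⟩
  have h1 : f = x⁻¹ * (x * f) := by rw [inv_mul_cancel_left₀ (hX x hx)]
  rw [h1]
  exact K.mul_mem (K.inv_mem (hRK x hxR)) (hRK _ hf)

theorem FracIs.invS (hR : FracIs R K) (hX : ∀ x ∈ X, x ≠ 0) : FracIs (invS R X) K := by
  refine ⟨invS_le hR.1 hX, fun g hg => ?_⟩
  obtain ⟨a, ha, b, hb, hb0, rfl⟩ := hR.2 g hg
  exact ⟨a, le_invS ha, b, le_invS hb, hb0, rfl⟩

theorem icl_mono (h : R ≤ R') (hE : E ≤ E') : icl R E ≤ icl R' E' := fun _ ha =>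
  ⟨hE ha.1, isIntegral_mono h ha.2⟩

theorem ICl_mono (h : R ≤ R') (hE : E ≤ E') : ICl v R E ≤ ICl v R' E' :=
  ALLZO.locv_mono (icl_mono h hE)

theorem le_ICl (hRE : ∀ f ∈ R, f ∈ E) : R ≤ ICl v R E := fun f hf =>
  ALLZO.le_locv _ ⟨hRE f hf, isIntegral_of_mem hf⟩

/-- `p`-coordinates of `R` with denominators in `X`. -/
def PC (p : ℕ) (R : Subalgebra k Ω) (X : Submonoid Ω) {μ : Type*} [Fintype μ] (m : μ → Ω) :
    Prop :=
  ∀ a ∈ R, ∃ c : μ → Ω, (∀ i, c i ∈ invS R X) ∧ a = ∑ i, m i * c i ^ p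

/-- `p`-coordinates of `R[1/X]`. -/
theorem PC.inv {p : ℕ} (hp : 0 < p) {μ : Type*} [Fintype μ] {m : μ → Ω} (h : PC p R X m)
    (hX : ∀ x ∈ X, x ≠ 0) {a : Ω} (ha : a ∈ invS R X) :
    ∃ c : μ → Ω, (∀ i, c i ∈ invS R X) ∧ a = ∑ i, m i * c i ^ p := by
  obtain ⟨x, hx, hxR, ha⟩ := ha
  obtain ⟨c, hc, e⟩ := h (x ^ (p - 1) * (x * a)) (R.mul_mem (R.pow_mem hxR _) ha)
  have hx0 := hX x hx
  refine ⟨fun i => x⁻¹ * c i, fun i => (invS R X).mul_mem (inv_mem_invS hx hxR hx0) (hc i), ?_⟩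
  have h1 : x ^ (p - 1) * (x * a) = x ^ p * a := by
    rw [← mul_assoc, ← pow_succ, Nat.sub_add_cancel hp]
  rw [h1] at e
  have h2 : a = (x⁻¹) ^ p * (x ^ p * a) := by
    rw [inv_pow, inv_mul_cancel_left₀ (pow_ne_zero _ hx0)]
  rw [h2, e, Finset.mul_sum]
  exact Finset.sum_congr rfl fun i _ => by rw [mul_pow]; ring

/-- **`p`-coordinates of the localised normalisation**: it is enough to have them for the elements
integral over `R[1/X]`. -/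
theorem PC.ICl_of {p : ℕ} (hp : 0 < p) {μ : Type*} [Fintype μ] {m : μ → Ω}
    (hRE : ∀ f ∈ R, f ∈ E)
    (h : ∀ a ∈ E, IsIntegral (invS R X) a → ∃ c : μ → Ω, (∀ i, c i ∈ E) ∧
      (∀ i, IsIntegral (invS R X) (c i)) ∧ a = ∑ i, m i * c i ^ p) :
    PC p (ICl v R E) X m := by
  rintro a ⟨b, hb, s, hs, hs0, hvs, rfl⟩
  have hsI : s⁻¹ ∈ ICl v R E := ⟨1, (icl R E).one_mem, s, hs, hs0, hvs, by rw [one_div]⟩
  obtain ⟨c, hcE, hc, e⟩ := h (b * s ^ (p - 1)) (mul_mem hb.1 (pow_mem hs.1 _))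
    ((isIntegral_mono le_invS hb.2).mul ((isIntegral_mono le_invS hs.2).pow _))
  refine ⟨fun i => s⁻¹ * c i, fun i => ?_, ?_⟩
  · refine (invS _ X).mul_mem (le_invS hsI) ?_
    obtain ⟨x, hx, hxR, h1⟩ := int_clearS (hc i)
    refine ⟨x, hx, le_ICl hRE hxR, ALLZO.le_locv _ ⟨E.mul_mem (hRE x hxR) (hcE i), h1⟩⟩
  · have h1 : b / s = (s⁻¹) ^ p * (b * s ^ (p - 1)) := by
      have h2 : s ^ p = s ^ (p - 1) * s := by rw [← pow_succ, Nat.sub_add_cancel hp]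
      rw [inv_pow, h2, mul_inv]
      have h3 : s ^ (p - 1) ≠ 0 := pow_ne_zero _ hs0
      field_simp
    rw [h1, e, Finset.mul_sum]
    exact Finset.sum_congr rfl fun i _ => by rw [mul_pow]; ring

/-- Transitivity of the localised normalisation. -/
theorem ICl_ICl (hE : E ≤ E') (hRE : ∀ f ∈ R, f ∈ E) : ICl v (ICl v R E) E' = ICl v R E' := by
  apply le_antisymm
  · rintro a ⟨b, hb, s, hs, hs0, hvs, rfl⟩
    have key : ∀ b ∈ icl (ICl v R E) E', ∃ t ∈ icl R E, (t ≠ 0 ∧ v t = 0) ∧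
        IsIntegral R (t * b) := by
      rintro b ⟨hbE, hb⟩
      obtain ⟨t, ht, ⟨ht0, hvt⟩, hi⟩ := ALLZO.int_den (S := icl R E) (T := ICl v R E)
        (fun s => s ≠ 0 ∧ v s = 0) ⟨one_ne_zero, v.map_one⟩
        (fun s t hs ht => ⟨mul_ne_zero hs.1 ht.1, by
          rw [v.map_mul hs.1 ht.1, hs.2, ht.2, add_zero]⟩) (by
        rintro z ⟨c, hc, d, hd, hd0, hvd, rfl⟩
        exact ⟨d, hd, ⟨hd0, hvd⟩, by rwa [mul_div_cancel₀ _ hd0]⟩) hb
      refine ⟨t, ht, ⟨ht0, hvt⟩, ?_⟩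
      have h1 : ∀ x : icl R E, IsIntegral R (x : Ω) := fun x => x.2.2
      obtain ⟨P, hP, hPe⟩ := hi
      let A : Subalgebra R Ω := integralClosure R Ω
      let φ : icl R E →+* A :=
        { toFun := fun x => ⟨(x : Ω), h1 x⟩
          map_one' := rfl
          map_mul' := fun _ _ => rfl
          map_zero' := rfl
          map_add' := fun _ _ => rfl }
      have h2 : IsIntegral A (t * b) := by
        refine ⟨P.map φ, hP.map _, ?_⟩
        rw [eval₂_map]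
        exact hPe
      exact isIntegral_trans (t * b) h2
    obtain ⟨t, ht, ⟨ht0, hvt⟩, h1⟩ := key b hb
    obtain ⟨t', ht', ⟨ht0', hvt'⟩, h1'⟩ := key s hs
    refine ⟨t' * (t * b), ?_, t * (t' * s), ?_, ?_, ?_, ?_⟩
    · exact mul_mem ⟨hE ht'.1, ht'.2⟩ ⟨mul_mem (hE ht.1) hb.1, h1⟩
    · exact mul_mem ⟨hE ht.1, ht.2⟩ ⟨mul_mem (hE ht'.1) hs.1, h1'⟩
    · exact mul_ne_zero ht0 (mul_ne_zero ht0' hs0)
    · rw [v.map_mul ht0 (mul_ne_zero ht0' hs0), v.map_mul ht0' hs0, hvt, hvt', hvs, add_zero,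
        add_zero]
    · field_simp
  · refine ALLZO.locv_mono ?_
    exact icl_mono (le_ICl hRE) le_rfl

end Pool.Agent.TGBh66
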