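import Mathlib

/-!
# TANK G, limit level: extensions with invertible discriminant

`R` is a normal domain with field of fractions `K`, `E = K(θ)` separable, `θ` integral over `R` and
the inverses of the differences of the conjugates of `θ` are integral over `R`.  Then the integral
closure of `R` in `E` is `R[θ] = R[θ^p]`; if `R` has `p`-coordinates, so has the integral closure.
-/

set_option autoImplicit false

open IntermediateField

namespace Pool.Agent.TGBh66

theorem mem_adjoin_of_disc {K E Ω : Type*} [Field K] [Field E] [Field Ω] [Algebra K E]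
    [Algebra K Ω] [IsAlgClosed Ω] [FiniteDimensional K E] [Algebra.IsSeparable K E]
    {R : Type*} [CommRing R] [Algebra R K] [IsFractionRing R K] [IsIntegrallyClosed R]
    [Algebra R E] [IsScalarTower R K E] [Algebra R Ω] [IsScalarTower R K Ω]
    {θ : E} (hθ : IsIntegral R θ) (hgen : Algebra.adjoin K {θ} = ⊤)
    (hd : ∀ σ τ : E →ₐ[K] Ω, σ θ ≠ τ θ → IsIntegral R (σ θ - τ θ)⁻¹) {z : E}
    (hz : IsIntegral R z) : z ∈ Algebra.adjoin R {θ} := by
  classical
  set pb := PowerBasis.ofAdjoinEqTop (hθ.tower_top (A := K)) hgen with hpb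
  have hg : pb.gen = θ := PowerBasis.ofAdjoinEqTop_gen _ _
  have h1 : Algebra.discr K pb.basis • z ∈ Algebra.adjoin R {pb.gen} :=
    Algebra.discr_mul_isIntegral_mem_adjoin K (by rw [hg]; exact hθ) hz
  rw [hg] at h1
  have hcard : Fintype.card (Fin pb.dim) = Fintype.card (E →ₐ[K] Ω) := by
    rw [Fintype.card_fin, AlgHom.card, pb.finrank]
  let e : Fin pb.dim ≃ (E →ₐ[K] Ω) := Fintype.equivOfCardEq hcard
  have h2 := Algebra.discr_powerBasis_eq_prod K Ω pb e
  rw [hg] at h2
  have hne : Algebra.discr K pb.basis ≠ 0 := Algebra.discr_not_zero_of_basis K pb.basis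
  have h3 : IsIntegral R (Algebra.discr K pb.basis)⁻¹ := by
    have h4 : IsIntegral R (algebraMap K Ω (Algebra.discr K pb.basis)⁻¹) := by
      rw [map_inv₀, h2, ← Finset.prod_inv_distrib]
      refine IsIntegral.prod _ fun i _ => ?_
      rw [← Finset.prod_inv_distrib]
      refine IsIntegral.prod _ fun j hj => ?_
      rw [← inv_pow]
      refine IsIntegral.pow (hd _ _ ?_) 2
      intro h5
      have h6 : e j = e i := pb.algHom_ext (by rw [hg]; exact h5)
      have h7 := e.injective h6
      rw [h7] at hj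
      exact absurd (Finset.mem_Ioi.1 hj) (lt_irrefl _)
    exact (isIntegral_algHom_iff (IsScalarTower.toAlgHom R K Ω)
      (algebraMap K Ω).injective).1 h4
  obtain ⟨u, hu⟩ := IsIntegrallyClosed.isIntegral_iff.1 h3
  have h4 : z = u • (Algebra.discr K pb.basis • z) := by
    rw [← algebraMap_smul K u, hu, smul_smul, inv_mul_cancel₀ hne, one_smul]
  rw [h4]
  exact Subalgebra.smul_mem _ h1 u

theorem adjoin_pow_eq_top {K E : Type*} [Field K] [Field E] [Algebra K E]
    [FiniteDimensional K E] [Algebra.IsSeparable K E] (p : ℕ) [hp : Fact p.Prime] [CharP K p]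
    {θ : E} (h : Algebra.adjoin K {θ} = ⊤) : Algebra.adjoin K {θ ^ p} = ⊤ := by
  have : ExpChar K p := ExpChar.prime hp.out
  have h1 := IntermediateField.adjoin_simple_eq_adjoin_pow_expChar_of_isSeparable K E
    (a := θ) (Algebra.IsSeparable.isSeparable K θ) p
  have h2 : (K⟮θ⟯).toSubalgebra = Algebra.adjoin K {θ} :=
    IntermediateField.adjoin_simple_toSubalgebra_of_isAlgebraic
      (Algebra.IsAlgebraic.isAlgebraic θ)
  have h3 : (K⟮θ ^ p⟯).toSubalgebra = Algebra.adjoin K {θ ^ p} :=
    IntermediateField.adjoin_simple_toSubalgebra_of_isAlgebraic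
      (Algebra.IsAlgebraic.isAlgebraic (θ ^ p))
  rw [← h3, ← h1, h2, h]

/-- `p`-coordinates of the integral closure. -/
theorem coord_of_disc {K E Ω : Type*} [Field K] [Field E] [Field Ω] [Algebra K E]
    [Algebra K Ω] [IsAlgClosed Ω] [FiniteDimensional K E] [Algebra.IsSeparable K E]
    (p : ℕ) [hp : Fact p.Prime] [CharP K p]
    {R : Type*} [CommRing R] [Algebra R K] [IsFractionRing R K] [IsIntegrallyClosed R]
    [Algebra R E] [IsScalarTower R K E] [Algebra R Ω] [IsScalarTower R K Ω]
    {θ : E} (hθ : IsIntegral R θ) (hgen : Algebra.adjoin K {θ} = ⊤)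
    (hd : ∀ σ τ : E →ₐ[K] Ω, σ θ ≠ τ θ → IsIntegral R (σ θ - τ θ)⁻¹)
    {ι : Type*} [Fintype ι] (m : ι → R)
    (hm : ∀ a : R, ∃ c : ι → R, a = ∑ i, m i * c i ^ p) {z : E}
    (hz : IsIntegral R z) :
    ∃ c : ι → E, (∀ i, IsIntegral R (c i)) ∧ z = ∑ i, algebraMap R E (m i) * c i ^ p := by
  classical
  have : CharP E p := (Algebra.charP_iff K E p).1 inferInstance
  have : CharP Ω p := (Algebra.charP_iff K Ω p).1 inferInstance
  have : CharP R p := by
    have hinj : Function.Injective (algebraMap R K) := IsFractionRing.injective R K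
    exact (RingHom.charP_iff (algebraMap R K) hinj p).2 inferInstance
  have hz' : z ∈ Algebra.adjoin R {θ ^ p} := by
    refine mem_adjoin_of_disc (Ω := Ω) (K := K) (hθ.pow p) (adjoin_pow_eq_top p hgen) ?_ hz
    intro σ τ hστ
    rw [map_pow, map_pow, ← sub_pow_char, ← inv_pow]
    refine IsIntegral.pow (hd σ τ ?_) p
    intro h
    apply hστ
    rw [map_pow, map_pow, h]
  rw [Algebra.adjoin_singleton_eq_range_aeval] at hz'
  obtain ⟨P, hP⟩ := hz'
  choose c hc using fun j : ℕ => hm (P.coeff j)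
  refine ⟨fun i => ∑ j ∈ Finset.range (P.natDegree + 1), algebraMap R E (c j i) * θ ^ j,
    fun i => IsIntegral.sum _ fun j _ => (isIntegral_algebraMap).mul (hθ.pow j), ?_⟩
  have h1 : z = ∑ j ∈ Finset.range (P.natDegree + 1), algebraMap R E (P.coeff j) * (θ ^ p) ^ j := by
    rw [← hP]
    change Polynomial.aeval (θ ^ p) P = _
    rw [Polynomial.aeval_eq_sum_range]
    exact Finset.sum_congr rfl fun j _ => by rw [Algebra.smul_def]
  rw [h1]
  have h2 : ∀ i, (∑ j ∈ Finset.range (P.natDegree + 1), algebraMap R E (c j i) * θ ^ j) ^ p =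
      ∑ j ∈ Finset.range (P.natDegree + 1), algebraMap R E (c j i ^ p) * (θ ^ p) ^ j := by
    intro i
    rw [sum_pow_char]
    refine Finset.sum_congr rfl fun j _ => ?_
    rw [mul_pow, ← map_pow, ← pow_mul, ← pow_mul, mul_comm j p]
  simp only [h2, Finset.mul_sum]
  rw [Finset.sum_comm]
  refine Finset.sum_congr rfl fun j _ => ?_
  rw [hc j, map_sum, Finset.sum_mul]
  refine Finset.sum_congr rfl fun i _ => ?_
  rw [map_mul, map_pow]
  ring

end Pool.Agent.TGBh66
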