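import Pool.Agent.Lib.TGB_h66.Coord
import Pool.Agent.Lib.ALL_h94.Adj

/-!
# TANK G, limit level: `p`-coordinates of the localised normalisation, from the derivations

`K = k(z)`, `z` algebraically independent, `E / K` finite separable; the integral closure of
`k[z][1/w]` in `E` is stable under the derivations `∂/∂z_j`.  If `R` is a normal ring with field of
fractions `K`, `z_j ∈ R[1/X]`, `1/w ∈ R[1/X]`, and `R` has `p`-coordinates, so has `ICl v R E`.
-/

set_option autoImplicit false

open Polynomial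

namespace Pool.Agent.TGBh66

open Pool.Agent.TAO (OVal VPos)
open Pool.Agent.ALLO (locv icl ICl)
open Pool.Agent.LU1 (FracIs)
open Pool.Agent.ALLh94 (PExp mon coord_mem exists_dual_of_pexp pexp_of_sep_adjoin)

universe u w

variable {k Ω : Type u} [Field k] [Field Ω] [Algebra k Ω]
  {𝕂 : Type w} [Field 𝕂] [LinearOrder 𝕂] [IsStrictOrderedRing 𝕂] {v : OVal 𝕂 Ω}
  {R : Subalgebra k Ω} {X : Submonoid Ω} {K E : IntermediateField k Ω}

/-- The polynomial ring `k[z]`. -/
def PR (k : Type u) {Ω : Type u} [Field k] [Field Ω] [Algebra k Ω] {n : ℕ} (z : Fin n → Ω) :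
    Subalgebra k Ω := Algebra.adjoin k (Set.range z)

/-- `p`-basis and dual derivations of a separable extension of `k(z)`. -/
theorem exists_der {p : ℕ} [hp : Fact p.Prime] [CharP Ω p] (hk : ∀ c : k, ∃ d : k, d ^ p = c)
    {n : ℕ} {z : Fin n → Ω} (hz : AlgebraicIndependent k z) (hKz : FracIs (PR k z) K)
    (hKE : K ≤ E) (hsep : ∀ a ∈ E, IsSeparable K a) (hess : Algebra.EssFiniteType k E) :
    ∃ t : Fin n → E, (∀ i, (t i : Ω) = z i) ∧ PExp p t (Set.univ : Set E) ∧
      ∃ d : Fin n → Derivation k E E, (∀ i j, d i (t j) = if i = j then 1 else 0) := by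
  classical
  have hcE : CharP E p := (algebraMap E Ω).charP (algebraMap E Ω).injective p
  have hzE : ∀ i, z i ∈ E := fun i => hKE (hKz.1 _ (Algebra.subset_adjoin ⟨i, rfl⟩))
  let t : Fin n → E := fun i => ⟨z i, hzE i⟩
  -- `k(t) = K` inside `E`
  have hmem : ∀ a : Ω, a ∈ K → ∃ b ∈ IntermediateField.adjoin k (Set.range t), (b : Ω) = a := by
    intro a ha
    have h1 : ∀ a ∈ PR k z, ∃ b ∈ IntermediateField.adjoin k (Set.range t), (b : Ω) = a := by
      intro a ha
      induction ha using Algebra.adjoin_induction with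
      | mem x hx =>
        obtain ⟨i, rfl⟩ := hx
        exact ⟨t i, IntermediateField.subset_adjoin _ _ ⟨i, rfl⟩, rfl⟩
      | algebraMap c => exact ⟨algebraMap k E c, IntermediateField.algebraMap_mem _ c, rfl⟩
      | add x y _ _ hx hy =>
        obtain ⟨b, hb, rfl⟩ := hx
        obtain ⟨c, hc, rfl⟩ := hy
        exact ⟨b + c, add_mem hb hc, rfl⟩
      | mul x y _ _ hx hy =>
        obtain ⟨b, hb, rfl⟩ := hx
        obtain ⟨c, hc, rfl⟩ := hy
        exact ⟨b * c, mul_mem hb hc, rfl⟩
    obtain ⟨b, hb, c, hc, -, rfl⟩ := hKz.2 a ha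
    obtain ⟨b', hb', rfl⟩ := h1 b hb
    obtain ⟨c', hc', rfl⟩ := h1 c hc
    exact ⟨b' / c', div_mem hb' hc', by push_cast; rfl⟩
  let F := IntermediateField.adjoin k (Set.range t)
  have hsepF : Algebra.IsSeparable F E := by
    constructor
    intro x
    -- the polynomial over `K`
    have h1 := hsep x x.2
    choose g hg hg' using fun a : K => hmem (a : Ω) a.2
    let φ : K →+* F :=
      { toFun := fun a => ⟨g a, hg a⟩
        map_one' := Subtype.ext (Subtype.ext (by rw [hg']; rfl))
        map_zero' := Subtype.ext (Subtype.ext (by rw [hg']; rfl))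
        map_mul' := fun a b => Subtype.ext (Subtype.ext (by
          rw [hg']
          change ((a * b : K) : Ω) = (g a : Ω) * (g b : Ω)
          rw [hg', hg']
          rfl))
        map_add' := fun a b => Subtype.ext (Subtype.ext (by
          rw [hg']
          change ((a + b : K) : Ω) = (g a : Ω) + (g b : Ω)
          rw [hg', hg']
          rfl)) }
    have hφ : ∀ a : K, ((φ a : E) : Ω) = a := fun a => hg' a
    have h2 : aeval x ((minpoly K (x : Ω)).map φ) = 0 := by
      apply Subtype.val_injective (p := fun z => z ∈ E)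
      rw [aeval_def, eval₂_map]
      have h3 := hom_eval₂ (minpoly K (x : Ω)) ((algebraMap F E).comp φ) (algebraMap E Ω) x
      have h4 : (algebraMap E Ω).comp ((algebraMap F E).comp φ) = algebraMap K Ω := by
        ext a
        exact hφ a
      rw [h4] at h3
      exact h3.trans (minpoly.aeval K (x : Ω))
    exact Separable.of_dvd (Polynomial.Separable.map (f := φ) h1) (minpoly.dvd F x h2)
  have hexp := pexp_of_sep_adjoin (p := p) hk t hsepF
  have hindt : AlgebraicIndependent k t := AlgebraicIndependent.of_comp (E.val : E →ₐ[k] Ω) hz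
  have htb : IsTranscendenceBasis k t := by
    rw [isTranscendenceBasis_iff_algebraicIndependent_isAlgebraic]
    refine ⟨hindt, ?_⟩
    have h1 : Algebra.IsAlgebraic F E := inferInstance
    exact IntermediateField.isAlgebraic_adjoin_iff_top.1 h1
  have htr : Algebra.trdeg k E = Fintype.card (Fin n) := by
    have h1 := htb.lift_cardinalMk_eq_trdeg
    rw [Cardinal.mk_fin, Cardinal.lift_natCast, Cardinal.lift_uzero] at h1
    rw [← h1, Fintype.card_fin]
  obtain ⟨d, hd, -⟩ := exists_dual_of_pexp htr t hexp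
  exact ⟨t, fun _ => rfl, hexp, d, hd⟩

/-- The integral closure of `k[z][1/w]` in `E` is stable under the derivations of `E` which are
constant on the `z_j`. -/
def DER (k : Type u) {Ω : Type u} [Field k] [Field Ω] [Algebra k Ω] {n : ℕ} (z : Fin n → Ω)
    (w : Ω) (E : IntermediateField k Ω) : Prop :=
  ∀ d : Derivation k E E, (∀ j, ∃ c : k, ∀ e : E, (e : Ω) = z j → (d e : Ω) = algebraMap k Ω c) →
    ∀ a : E, IsIntegral (invS (PR k z) (Submonoid.powers w)) (a : Ω) →
      IsIntegral (invS (PR k z) (Submonoid.powers w)) (d a : Ω)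

theorem PR_noeth {n : ℕ} {z : Fin n → Ω} (hz : AlgebraicIndependent k z) :
    IsNoetherianRing (PR k z) :=
  isNoetherianRing_of_ringEquiv _ hz.aevalEquiv.toRingEquiv

theorem PR_normal {n : ℕ} {z : Fin n → Ω} (hz : AlgebraicIndependent k z) :
    IsIntegrallyClosed (PR k z) :=
  IsIntegrallyClosed.of_equiv hz.aevalEquiv.toRingEquiv

/-- **`p`-coordinates of the localised normalisation, from the derivations.** -/
theorem pcoord_der (p : ℕ) [hp : Fact p.Prime] [CharP Ω p] (hk : ∀ c : k, ∃ d : k, d ^ p = c)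
    {n : ℕ} {z : Fin n → Ω} (hz : AlgebraicIndependent k z) (hKz : FracIs (PR k z) K)
    {N : IntermediateField K Ω} [FiniteDimensional K N] [IsGalois K N] (hEN : ∀ e ∈ E, e ∈ N)
    (hKE : K ≤ E) {w : Ω} (hw0 : w ≠ 0) (hder : DER k z w E)
    (hRK : FracIs R K) (hR : Nrm R K) (hX : ∀ x ∈ X, x ≠ 0) (hXR : ∀ x ∈ X, x ∈ R)
    (hzR : ∀ j, z j ∈ invS R X) (hwR : w⁻¹ ∈ invS R X)
    {μ : Type*} [Fintype μ] {m : μ → Ω} (hm : ∀ i, m i ∈ E) (hS : PC p R X m) :
    PC p (ICl v R E) X m := by
  classical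
  have hfrac := hKz
  -- the algebra structures
  let algKE : Algebra K E := (IntermediateField.inclusion hKE).toRingHom.toAlgebra
  have halgKE : ∀ z : K, ((algebraMap K E z : E) : Ω) = z := fun _ => rfl
  have htowk : IsScalarTower k K E := IsScalarTower.of_algebraMap_eq fun _ => rfl
  let φ : E →ₐ[K] N :=
    { toFun := fun e => ⟨(e : Ω), hEN e e.2⟩
      map_one' := rfl
      map_mul' := fun _ _ => rfl
      map_zero' := rfl
      map_add' := fun _ _ => rfl
      commutes' := fun _ => rfl }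
  have hφ : Function.Injective φ := fun a b hab =>
    Subtype.ext (congrArg (fun z : N => (z : Ω)) hab)
  have hfd : FiniteDimensional K E := FiniteDimensional.of_injective φ.toLinearMap hφ
  have hsepKE : Algebra.IsSeparable K E := Algebra.IsSeparable.of_algHom K N φ
  have hchar : CharP E p := (algebraMap E Ω).charP Subtype.val_injective p
  set O := PR k z with hOdef
  have hzO : ∀ i, z i ∈ O := fun i => Algebra.subset_adjoin ⟨i, rfl⟩
  have hOKm : ∀ f ∈ O, f ∈ K := hKz.1
  have hnoe : IsNoetherianRing O := PR_noeth hz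
  have hnor : IsIntegrallyClosed O := PR_normal hz
  -- `K` and `E` are essentially of finite type
  have hessK : Algebra.EssFiniteType k K := by
    rw [← IntermediateField.fg_top_iff]
    have h1 : (IntermediateField.adjoin k (Set.range fun i => (⟨z i, hOKm _ (hzO i)⟩ : K))) = ⊤ := by
      rw [eq_top_iff]
      intro a _
      have key : ∀ f ∈ O, ∀ hf : f ∈ K, (⟨f, hf⟩ : K) ∈ IntermediateField.adjoin k
          (Set.range fun i => (⟨z i, hOKm _ (hzO i)⟩ : K)) := by
        intro f hf
        induction hf using Algebra.adjoin_induction with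
        | mem x hx =>
          obtain ⟨i, rfl⟩ := hx
          intro _
          exact IntermediateField.subset_adjoin _ _ ⟨i, rfl⟩
        | algebraMap c => intro _; exact IntermediateField.algebraMap_mem _ c
        | add x y hx' hy' hx hy =>
          intro _
          exact add_mem (hx (hOKm _ hx')) (hy (hOKm _ hy'))
        | mul x y hx' hy' hx hy =>
          intro _
          exact mul_mem (hx (hOKm _ hx')) (hy (hOKm _ hy'))
      obtain ⟨b, hb, c, hc, -, hbc⟩ := hKz.2 (a : Ω) a.2
      have h2 : a = (⟨b, hOKm b hb⟩ : K) / ⟨c, hOKm c hc⟩ := Subtype.ext hbc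
      rw [h2]
      exact div_mem (key b hb _) (key c hc _)
    refine ⟨(Set.finite_range fun i => (⟨z i, hOKm _ (hzO i)⟩ : K)).toFinset, ?_⟩
    rw [Set.Finite.coe_toFinset]
    exact h1
  have hessE : Algebra.EssFiniteType k E := Algebra.EssFiniteType.comp k K E
  have hsep : ∀ a ∈ E, IsSeparable K a := by
    intro a ha
    have h1 : IsSeparable K (⟨a, hEN a ha⟩ : N) := Algebra.IsSeparable.isSeparable K _
    have h2 := minpoly.algebraMap_eq (A := K) (B := N) (B' := Ω) Subtype.val_injective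
      ⟨a, hEN a ha⟩
    unfold IsSeparable at h1 ⊢
    rw [← h2] at h1
    exact h1
  obtain ⟨t, ht, hexp, d, hd⟩ := exists_der hk hz hfrac hKE hsep hessE
  -- the algebra structures of `O`
  let algOK : Algebra O K :=
    RingHom.toAlgebra
      { toFun := fun z => ⟨(z : Ω), hOKm z z.2⟩
        map_one' := rfl
        map_mul' := fun _ _ => rfl
        map_zero' := rfl
        map_add' := fun _ _ => rfl }
  let algOE : Algebra O E :=
    RingHom.toAlgebra
      { toFun := fun z => ⟨(z : Ω), hKE (hOKm z z.2)⟩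
        map_one' := rfl
        map_mul' := fun _ _ => rfl
        map_zero' := rfl
        map_add' := fun _ _ => rfl }
  have htower : IsScalarTower O K E := IsScalarTower.of_algebraMap_eq fun _ => rfl
  have hOinj : Function.Injective (algebraMap O K) := fun a b hab =>
    Subtype.ext (congrArg (fun z : K => (z : Ω)) hab)
  have hfracO : IsFractionRing O K := by
    have hfs : FaithfulSMul O K := (faithfulSMul_iff_algebraMap_injective O K).2 hOinj
    refine IsFractionRing.of_field O K fun z => ?_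
    obtain ⟨a, ha, b, hb, hb0, hab⟩ := hKz.2 (z : Ω) z.2
    exact ⟨⟨a, ha⟩, ⟨b, hb⟩, Subtype.ext hab⟩
  have htow2 : IsScalarTower O E Ω := IsScalarTower.of_algebraMap_eq fun _ => rfl
  have hintO : ∀ e : E, IsIntegral O e ↔ IsIntegral O (e : Ω) := fun e =>
    (isIntegral_algebraMap_iff (A := E) (B := Ω) Subtype.val_injective).symm
  -- the ring `A`
  set T₀ := invS O (Submonoid.powers w) with hT₀
  let AE : Subalgebra O E :=
    { carrier := {e | IsIntegral T₀ (e : Ω)}
      mul_mem' := fun ha hb => by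
        simp only [Set.mem_ofPred_eq] at ha hb ⊢
        push_cast
        exact ha.mul hb
      add_mem' := fun ha hb => by
        simp only [Set.mem_ofPred_eq] at ha hb ⊢
        push_cast
        exact ha.add hb
      algebraMap_mem' := fun z => isIntegral_of_mem (le_invS z.2) }
  have hA1 : ∀ e : E, IsIntegral O e → e ∈ AE := fun e he =>
    isIntegral_mono le_invS ((hintO e).1 he)
  have hA2 : ∀ e ∈ AE, ∃ b s : E, IsIntegral O b ∧ IsIntegral O s ∧ s ≠ 0 ∧ s⁻¹ ∈ AE ∧
      e = b / s := by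
    intro e he
    obtain ⟨x, hx, hxO, hi⟩ := int_clearS he
    have hx0 : x ≠ 0 := by
      obtain ⟨M, rfl⟩ := hx
      exact pow_ne_zero _ hw0
    have hxE : x ∈ E := hKE (hOKm x hxO)
    refine ⟨⟨x, hxE⟩ * e, ⟨x, hxE⟩, (hintO _).2 (by push_cast; exact hi),
      (hintO _).2 (isIntegral_of_mem hxO), fun h0 => hx0 (congrArg Subtype.val h0), ?_, ?_⟩
    · change IsIntegral T₀ (((⟨x, hxE⟩ : E)⁻¹ : E) : Ω)
      push_cast
      exact isIntegral_of_mem (inv_mem_invS hx hxO hx0)
    · rw [mul_div_cancel_left₀]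
      exact fun h0 => hx0 (congrArg Subtype.val h0)
  have hAd : ∀ i, ∀ e ∈ AE, d i e ∈ AE := by
    intro i e he
    refine hder (d i) (fun j => ?_) e he
    refine ⟨if i = j then 1 else 0, fun e' he' => ?_⟩
    have h1 : e' = t j := Subtype.ext (by rw [he', ht])
    rw [h1, hd]
    split_ifs <;> simp
  have hAp : ∀ e : E, e ^ p ∈ AE → e ∈ AE := by
    intro e he
    refine IsIntegral.of_pow hp.out.pos ?_
    exact he
  -- the ring `S`
  set T := invS R X with hT
  have hTK : ∀ f ∈ T, f ∈ K := invS_le hRK.1 hX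
  have hTn : Nrm T K := hR.invS hRK.1
  let S : Subring K :=
    { carrier := {z | (z : Ω) ∈ T}
      mul_mem' := fun ha hb => T.mul_mem ha hb
      add_mem' := fun ha hb => T.add_mem ha hb
      one_mem' := T.one_mem
      zero_mem' := T.zero_mem
      neg_mem' := fun ha => T.neg_mem ha }
  have hSint : ∀ f : K, IsIntegral S f → f ∈ S := by
    intro f hf
    have h1 : IsIntegral T (f : Ω) :=
      (ALLZO.int_iff (T := T) (fun _ => rfl) (fun _ => Iff.rfl) hTK f).1 hf
    exact hTn _ f.2 h1
  have hSE : ∀ e : E, IsIntegral S e ↔ IsIntegral T (e : Ω) := fun e =>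
    ALLZO.int_iff (T := T) halgKE (fun _ => Iff.rfl) hTK e
  have hOT : O ≤ T := by
    rw [hOdef]
    refine Algebra.adjoin_le ?_
    rintro _ ⟨j, rfl⟩
    exact hzR j
  have hT₀T : T₀ ≤ T := by
    rintro f ⟨x, ⟨M, rfl⟩, hxO, hf⟩
    have h1 : f = (w⁻¹) ^ M * (w ^ M * f) := by
      rw [inv_pow, inv_mul_cancel_left₀ (pow_ne_zero _ hw0)]
    rw [h1]
    exact T.mul_mem (T.pow_mem hwR _) (hOT hf)
  -- the ring `C`
  have hRE : ∀ f ∈ R, f ∈ E := fun f hf => hKE (hRK.1 f hf)
  set C' := invS (ICl v R E) X with hC'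
  let C : Subring E :=
    { carrier := {z | (z : Ω) ∈ C'}
      mul_mem' := fun ha hb => C'.mul_mem ha hb
      add_mem' := fun ha hb => C'.add_mem ha hb
      one_mem' := C'.one_mem
      zero_mem' := C'.zero_mem
      neg_mem' := fun ha => C'.neg_mem ha }
  have hC1 : ∀ e : E, IsIntegral S e → e ∈ C := by
    intro e he
    obtain ⟨x, hx, hxR, hM⟩ := int_clearS ((hSE e).1 he)
    exact ⟨x, hx, le_ICl hRE hxR, ALLZO.le_locv _ ⟨mul_mem (hRE x hxR) e.2, hM⟩⟩
  have hTC : T ≤ C' := invS_mono (le_ICl hRE)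
  have hC2 : ∀ e ∈ C, ∃ s y : E, IsIntegral S s ∧ IsIntegral S y ∧ s ≠ 0 ∧ s⁻¹ ∈ C ∧
      e = y / s := by
    rintro e ⟨x, hx, -, b, hb, s, hs, hs0, hvs, hxe⟩
    have hx0 := hX x hx
    have hxR := hXR x hx
    have hxE := hRE x hxR
    refine ⟨⟨x, hxE⟩ * ⟨s, hs.1⟩, ⟨b, hb.1⟩, (hSE _).2 ?_, (hSE _).2 (isIntegral_mono le_invS hb.2),
      ?_, ?_, ?_⟩
    · push_cast
      exact (isIntegral_of_mem (le_invS hxR)).mul (isIntegral_mono le_invS hs.2)
    · exact mul_ne_zero (fun h0 => hx0 (congrArg Subtype.val h0))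
        (fun h0 => hs0 (congrArg Subtype.val h0))
    · change (((⟨x, hxE⟩ * ⟨s, hs.1⟩ : E)⁻¹ : E) : Ω) ∈ C'
      push_cast
      rw [mul_inv]
      refine C'.mul_mem (hTC (inv_mem_invS hx hxR hx0)) (le_invS ?_)
      exact ⟨1, (icl R E).one_mem, s, hs, hs0, hvs, by rw [one_div]⟩
    · apply Subtype.ext
      push_cast
      rw [eq_div_iff (mul_ne_zero hx0 hs0)]
      calc (e : Ω) * (x * s) = (x * e) * s := by ring
        _ = b := by rw [hxe, div_mul_cancel₀ _ hs0]
  have hAC : ∀ e ∈ AE, e ∈ C := fun e he => hC1 e ((hSE e).2 (isIntegral_mono hT₀T he))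
  have hSm : ∀ s ∈ S, ∃ c : μ → E, (∀ i, c i ∈ C) ∧
      algebraMap K E s = ∑ i, (⟨m i, hm i⟩ : E) * c i ^ p := by
    intro s hs
    obtain ⟨c, hc, e⟩ := hS.inv hp.out.pos hX hs
    refine ⟨fun i => ⟨c i, hKE (hTK _ (hc i))⟩, fun i => hTC (hc i), ?_⟩
    apply Subtype.ext
    push_cast
    rw [halgKE]
    exact e
  have ht' : ∀ i, algebraMap O E ⟨z i, hzO i⟩ = t i := fun i => Subtype.ext (ht i).symm
  have hexp' : PExp p (fun i => algebraMap O E ⟨z i, hzO i⟩) (Set.univ : Set E) := by
    simp only [ht']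
    exact hexp
  intro a ha
  have haE : a ∈ E := by
    obtain ⟨b, hb, s, hs, -, -, rfl⟩ := ha
    exact div_mem hb.1 hs.1
  obtain ⟨c, hc, hac⟩ := ALL6.coord_abs (K := K) (E := E) (p := p) O (fun i => ⟨z i, hzO i⟩)
    (fun i => (d i).restrictScalars ℤ) (fun i j => by
      rw [ht']
      exact hd i j) hexp' AE hA1 hA2
    (fun i e he => hAd i e he) hAp S hSint (fun o => hOT o.2) C hC1 hC2 hAC
    (fun i => (⟨m i, hm i⟩ : E)) hSm ⟨a, haE⟩ (le_invS ha)
  refine ⟨fun i => (c i : Ω), fun i => hc i, ?_⟩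
  have h1 := congrArg (fun e : E => (e : Ω)) hac
  simp only at h1
  rw [h1]
  push_cast
  rfl

end Pool.Agent.TGBh66
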