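import Pool.Agent.Lib.TGB_h66.Coord

/-!
# TANK G, limit level: `p`-coordinates of the localised normalisation in `K(θ)`
-/

set_option autoImplicit false

open Polynomial IntermediateField

namespace Pool.Agent.TGBh66

open Pool.Agent.TAO (OVal VPos)
open Pool.Agent.ALLO (locv icl ICl)
open Pool.Agent.LU1 (FracIs)

universe u w

variable {k Ω : Type u} [Field k] [Field Ω] [Algebra k Ω]
  {𝕂 : Type w} [Field 𝕂] [LinearOrder 𝕂] [IsStrictOrderedRing 𝕂] {v : OVal 𝕂 Ω}
  {R : Subalgebra k Ω} {X : Submonoid Ω} {K E : IntermediateField k Ω}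

/-- **`p`-coordinates of the localised normalisation of `R` in `E = K(θ)`**: `θ` and the inverses of
the differences of its conjugates are integral over `R[1/X]`. -/
theorem pcoord_disc [IsAlgClosed Ω] (p : ℕ) [hp : Fact p.Prime] [CharP Ω p] (hRK : FracIs R K)
    (hR : Nrm R K) (hX : ∀ x ∈ X, x ≠ 0) {θ : Ω} (hsep : IsSeparable K θ)
    (hE : (K⟮θ⟯).restrictScalars k = E) (hθ : IsIntegral (invS R X) θ)
    (hd : ∀ θ' θ'' : Ω, aeval θ' (minpoly K θ) = 0 → aeval θ'' (minpoly K θ) = 0 → θ' ≠ θ'' →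
      IsIntegral (invS R X) (θ' - θ'')⁻¹)
    {μ : Type*} [Fintype μ] {m : μ → Ω} (hm : ∀ i, m i ∈ invS R X) (hS : PC p R X m) :
    PC p (ICl v R E) X m := by
  classical
  have hKE : K ≤ E := by
    rw [← hE]
    intro x hx
    exact (K⟮θ⟯).algebraMap_mem ⟨x, hx⟩
  set T := invS R X with hT
  have hTK : ∀ f ∈ T, f ∈ K := invS_le hRK.1 hX
  have hTn : Nrm T K := hR.invS hRK.1
  have hTf : FracIs T K := FracIs.invS hRK hX
  have hcharK : CharP K p := (algebraMap K Ω).charP (algebraMap K Ω).injective p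
  refine PC.ICl_of hp.out.pos (fun f hf => hKE (hRK.1 f hf)) ?_
  intro a ha hai
  rw [← hT] at hai ⊢
  -- the algebra structures
  let algTK : Algebra T K :=
    RingHom.toAlgebra
      { toFun := fun z => ⟨(z : Ω), hTK z z.2⟩
        map_one' := rfl
        map_mul' := fun _ _ => rfl
        map_zero' := rfl
        map_add' := fun _ _ => rfl }
  let algTE : Algebra T K⟮θ⟯ := ((algebraMap K K⟮θ⟯).comp (algebraMap T K)).toAlgebra
  have htow1 : IsScalarTower T K K⟮θ⟯ := IsScalarTower.of_algebraMap_eq fun _ => rfl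
  have htow2 : IsScalarTower T K Ω := IsScalarTower.of_algebraMap_eq fun _ => rfl
  have htow3 : IsScalarTower T K⟮θ⟯ Ω := IsScalarTower.of_algebraMap_eq fun _ => rfl
  have hinj : Function.Injective (algebraMap T K) := fun a b hab =>
    Subtype.ext (congrArg (fun z : K => (z : Ω)) hab)
  have hfr : IsFractionRing T K := by
    have hfs : FaithfulSMul T K := (faithfulSMul_iff_algebraMap_injective T K).2 hinj
    refine IsFractionRing.of_field T K fun z => ?_
    obtain ⟨a, ha, b, hb, hb0, hab⟩ := hTf.2 (z : Ω) z.2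
    exact ⟨⟨a, ha⟩, ⟨b, hb⟩, Subtype.ext hab⟩
  have hic : IsIntegrallyClosed T := by
    rw [isIntegrallyClosed_iff K]
    intro x hx
    have h1 : IsIntegral T (x : Ω) :=
      (isIntegral_algHom_iff (IsScalarTower.toAlgHom T K Ω) (algebraMap K Ω).injective).2 hx
    exact ⟨⟨x, hTn _ x.2 h1⟩, rfl⟩
  have hθK : IsIntegral K θ := hsep.isIntegral
  have hfd : FiniteDimensional K K⟮θ⟯ := adjoin.finiteDimensional hθK
  have hsepE : Algebra.IsSeparable K K⟮θ⟯ :=
    (isSeparable_adjoin_simple_iff_isSeparable K Ω).2 hsep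
  have hiff : ∀ e : K⟮θ⟯, IsIntegral T e ↔ IsIntegral T (e : Ω) := fun e =>
    (isIntegral_algHom_iff (IsScalarTower.toAlgHom T K⟮θ⟯ Ω)
      (algebraMap K⟮θ⟯ Ω).injective).symm
  have hgen : Algebra.adjoin K {AdjoinSimple.gen K θ} = ⊤ := by
    have h1 := (adjoin.powerBasis hθK).adjoin_gen_eq_top
    rwa [adjoin.powerBasis_gen] at h1
  have hroot : ∀ σ : K⟮θ⟯ →ₐ[K] Ω, aeval (σ (AdjoinSimple.gen K θ)) (minpoly K θ) = 0 := by
    intro σ
    have h1 : aeval (AdjoinSimple.gen K θ) (minpoly K θ) = 0 := by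
      rw [← minpoly_gen K θ]
      exact minpoly.aeval _ _
    rw [aeval_algHom_apply, h1, map_zero]
  have haE : a ∈ K⟮θ⟯ := by
    rw [← hE] at ha
    exact ha
  obtain ⟨c, hc, e⟩ := coord_of_disc (K := K) (E := K⟮θ⟯) (Ω := Ω) p (R := T)
    (θ := AdjoinSimple.gen K θ) ((hiff _).2 (by rw [AdjoinSimple.coe_gen]; exact hθ)) hgen
    (fun σ τ hστ => hd _ _ (hroot σ) (hroot τ) hστ) (fun i => (⟨m i, hm i⟩ : T))
    (by
      intro a
      obtain ⟨c, hc, e⟩ := hS.inv hp.out.pos hX a.2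
      refine ⟨fun i => ⟨c i, hc i⟩, Subtype.ext ?_⟩
      rw [e]
      push_cast
      rfl) (z := ⟨a, haE⟩) ((hiff _).2 hai)
  refine ⟨fun i => (c i : Ω), fun i => ?_, fun i => (hiff _).1 (hc i), ?_⟩
  · rw [← hE]
    exact (c i).2
  · have h1 := congrArg (fun z : K⟮θ⟯ => (z : Ω)) e
    simp only at h1
    rw [h1]
    push_cast
    rfl

end Pool.Agent.TGBh66
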